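import Pool.Agent.Y157.PS.Ind2

/-!
# The pro-`ℓ` section conjecture for superelliptic curves over `p`-adic fields, `ℓ ≠ p`

Let `k` be a finite extension of `ℚ_p`, or any complete discretely valued field of characteristic
zero with finite residue field, let `A` be its valuation ring, let `ℓ` be a prime number which is
invertible in `A`, and let `f ∈ A[x]` be a polynomial with invertible leading coefficient and
separable reduction, whose degree is at least 3 and divisible by `ℓ`.  Let `d ∈ k` be an element
whose valuation is not divisible by `ℓ`, and let `C` be the smooth projective curve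
`d y^ℓ = f(x)` over `k`.  Its genus is `(ℓ - 1)(deg f - 2)/2`; the points `P_e = (e, 0)`, where
`e ∈ k` is a root of `f`, are rational points of `C`, and every rational point of `C` reduces to the
same point as one of them.

Let `F = k(x, y)` be the function field of `C`, and let `M` be the maximal pro-`ℓ` extension of
`k̄ F` that is unramified over `C`, so that `Gal(M/F)` is the geometrically pro-`ℓ` fundamental
group of `C`, the quotient of `π₁(C)` by the kernel of `π₁(C_k̄) → π₁(C_k̄)^(pro-ℓ)`.

**Theorem.**  For every section `s` of `Gal(M/F) → G_k` there is exactly one prolongation `W` to `M`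
of the valuation of a branch point such that the image of `s` is contained in the decomposition group
of `W`, and the branch point is a rational point `P_e`.

So the sections of the geometrically pro-`ℓ` fundamental group are exactly the sections of the
rational points `P_e`, and different `P_e` have sections which are not conjugate.  In particular for
every section of `π₁(C) → G_k`, and of `π₁(U) → G_k` for an open subcurve `U`, the induced section
of `Gal(M/F) → G_k` is the section of exactly one of the rational points `P_e`, and if `f` has no
root in `k` then there are no sections.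

Here the theorem is stated for an arbitrary extension `N ⊇ M` of `F` in an algebraic closure `Ω`
instead of `M`: this includes `N = M` and the fields `N = F_U` with `Gal(F_U/F) = π₁(U)`.

The fundamental group is described through valuations.  Let `U` be an open subcurve of `C`, let `Ω`
be an algebraic closure of `F`, and let `F_U` be the maximal extension of `F` inside `Ω` which is
unramified over the closed points of `U`, that is, over their local rings, which are valuation rings
of `F`.  Then `π₁(U) = Gal(F_U/F)`, and the map `π₁(U) → G_k` is the restriction of automorphisms to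
the algebraic closure of `k` in `Ω`.

Proof.  Let `κ = k̄` and `δ^ℓ = d / lc(f)`, so that `Y = δ y` satisfies `Y^ℓ = ∏ (x - e)`.
(1) The Gauss valuation of `κ(x)` has exactly one prolongation `O` to `M`: `M` can be embedded in the
field of functions on an open disc around a branch point, the divisors of functions on the disc are
the ones of polynomials (Weierstrass preparation), and this gives an inertia element at each branch
point which fixes a prolongation; the elements `γ` of `Gal(M/κ(x))` which fix a prolongation form a
subgroup which contains inertia elements at all branch points, so it is everything (Tsen, divisors of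
degree zero are principal modulo `ℓ` up to norms).  `Gal(M/κ(x))` acts faithfully on the residue
field of `O`, and every automorphism of the residue field over that of `κ(x)` comes from it.
(2) By (1) for `σ` in the inertia group of `k` there is exactly one `γ ∈ Gal(M/κ(x))` with the same
action as `s(σ)` on the residue field of `O`.  A weight argument (finiteness of the class group of a
function field over a finite field) shows that `γ = 1` if `σ(δ) = δ`.  So `s(τ)` acts like an element
`γ` of order `ℓ` for a generator `τ` of tame inertia.
(3) Every element of order `ℓ` of `Gal(M/κ(x))` fixes exactly one place `W` of `M`.  (4) By (3) the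
place `W` is fixed by `s(G_k)`.
-/

open Polynomial

namespace Pool.Agent.Results.MP_c385f6_ag.ProEllSections

section definitions

variable (ℓ : ℕ) (k F Ω : Type) [Field k] [Field F] [Field Ω] [Algebra k F] [Algebra F Ω]
  [Algebra k Ω]

/-- The inertia group of the valuation ring `W` of `Ω`, as a subgroup of `Gal(Ω/F)`: the
automorphisms of `Ω` over `F` that map `W` onto itself and act as the identity on its residue
field. -/
noncomputable def inertia (W : ValuationSubring Ω) : Subgroup (Ω ≃ₐ[F] Ω) :=
  (W.inertiaSubgroup F).map (W.decompositionSubgroup F).subtype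

/-- `F_U`, for a set `U` of valuation rings of `F`: the elements of `Ω` fixed by the inertia groups
of all valuation rings `W` of `Ω` with `W ∩ F ∈ U`.  If `Ω` is an algebraic closure of a field `F`
of characteristic zero, this is the maximal extension of `F` in `Ω` unramified over `U`. -/
noncomputable def unramified (U : Set (ValuationSubring F)) : IntermediateField F Ω :=
  ⨅ W : {W : ValuationSubring Ω // W.comap (algebraMap F Ω) ∈ U},
    IntermediateField.fixedField (inertia F Ω W.1)

/-- `k̄ F`, the compositum of `F` and of the algebraic closure of `k` in `Ω`. -/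
noncomputable def geomField : IntermediateField F Ω :=
  IntermediateField.adjoin F (algebraicClosure k Ω : Set Ω)

/-- The algebraic extension `L` of `K` in `Ω` is unramified at all valuation rings of `Ω` that
contain `k`: every nonzero element of `L` has the same valuation as an element of `K`.  (If `K` is
a function field of one variable over the algebraic closure of `k` and `k` has characteristic zero,
then this says that `L/K` is unramified over all points of the smooth projective curve.) -/
def Unramified {k K Ω : Type} [Field k] [Field K] [Field Ω] [Algebra k Ω] [Algebra K Ω]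
    (L : IntermediateField K Ω) : Prop :=
  ∀ W : ValuationSubring Ω, (∀ c : k, algebraMap k Ω c ∈ W) → ∀ z ∈ L, z ≠ 0 →
    ∃ t : K, t ≠ 0 ∧ z / algebraMap K Ω t ∈ W ∧ (z / algebraMap K Ω t)⁻¹ ∈ W

/-- `L/K` is a finite Galois extension whose degree is a power of `ℓ`. -/
def FiniteProEll (ℓ : ℕ) {K Ω : Type} [Field K] [Field Ω] [Algebra K Ω]
    (L : IntermediateField K Ω) : Prop :=
  FiniteDimensional K L ∧ IsGalois K L ∧ ∃ m : ℕ, Module.finrank K L = ℓ ^ m

/-- The maximal unramified pro-`ℓ` extension of `K` in `Ω`: the compositum of the finite Galois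
extensions of `K` whose degree is a power of `ℓ` and which are unramified. -/
noncomputable def maxProEll (ℓ : ℕ) (k K Ω : Type) [Field k] [Field K] [Field Ω] [Algebra k Ω]
    [Algebra K Ω] : IntermediateField K Ω :=
  ⨆ L : {L : IntermediateField K Ω // FiniteProEll ℓ L ∧ Unramified (k := k) L}, L.1

/-- `M`, the maximal unramified pro-`ℓ` extension of `k̄ F` in `Ω`, as an extension of `F`. -/
noncomputable def proEllField : IntermediateField F Ω :=
  (maxProEll ℓ k (geomField k F Ω) Ω).restrictScalars F

/-- The map `τ : M → M` acts as `σ : K → K` on the elements that the fields `K` and `M` have in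
common when they are regarded as subfields of `Ω` through `i` and `j`. -/
def ActsAs {K M Ω : Type} [Field K] [Field M] [Field Ω] (i : K →+* Ω) (j : M →+* Ω) (σ : K → K)
    (τ : M → M) : Prop :=
  ∀ c z, j z = i c → j (τ z) = i (σ c)

/-- Let `k ⊆ K ⊆ Ω` and `F ⊆ N ⊆ Ω` be fields.  A splitting of `Gal(N/F) → Gal(K/k)`: a continuous
homomorphism `s` from `Gal(K/k)` to `Gal(N/F)` such that `s(σ)` acts as `σ` on the elements of
`K ∩ N`. -/
structure Splitting (K N : Type) [Field K] [Field N] [Algebra k K] [Algebra F N] [Algebra K Ω]
    [Algebra N Ω] where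
  /-- the homomorphism `Gal(K/k) → Gal(N/F)` -/
  toHom : (K ≃ₐ[k] K) →* (N ≃ₐ[F] N)
  cont : Continuous toHom
  compat : ∀ σ : K ≃ₐ[k] K, ActsAs (algebraMap K Ω) (algebraMap N Ω) σ (toHom σ)

end definitions

section places

/-- The valuation ring `W` of `N` contains `k`, and the function `t ∈ F` is in its maximal ideal. -/
def ZeroAt (k : Type) {F N : Type} [Field k] [Field F] [Field N] [Algebra k F] [Algebra F N]
    (W : ValuationSubring N) (t : F) : Prop :=
  (∀ c : k, algebraMap F N (algebraMap k F c) ∈ W) ∧ algebraMap F N t ∈ W.nonunits

/-- The residue field of `W ∩ F` is `k`. -/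
def RationalResidue (k F : Type) {N : Type} [Field k] [Field F] [Field N] [Algebra k F]
    [Algebra F N] (W : ValuationSubring N) : Prop :=
  ∀ z : F, algebraMap F N z ∈ W → ∃ c : k, algebraMap F N (z - algebraMap k F c) ∈ W.nonunits

/-- The image of `s : Gal(K/k) → Gal(N/F)` in `Gal(M/F)`, where `M ⊆ N ⊆ Ω`, is contained in the
decomposition group of the valuation ring `W ∩ M`. -/
def InDecomposition {k F Ω K N : Type} [Field k] [Field F] [Field Ω] [Field K] [Field N]
    [Algebra k K] [Algebra F N] [Algebra F Ω] [Algebra K Ω] [Algebra N Ω]
    (s : Splitting k F Ω K N) (M : IntermediateField F Ω) (W : ValuationSubring N) : Prop :=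
  ∀ σ, ∀ z : N, algebraMap N Ω z ∈ M → (s.toHom σ z ∈ W ↔ z ∈ W)

/-- The splitting `s` of `Gal(N/F) → Gal(K/k)` induces on `M ⊆ N` the section of exactly one branch
point, and this is a rational one: there is a valuation ring `W` of `N` above a branch point `x = e`,
where `e ∈ k` is a root of `f`, with residue field `k`, such that the image of `s` in `Gal(M/F)` is
contained in the decomposition group of `W ∩ M`; and `W ∩ M` is the only such valuation ring above
a branch point, that is, with `f(x)` in its maximal ideal. -/
def FromOneBranchPoint {k F Ω K N : Type} [Field k] [Field F] [Field Ω] [Field K] [Field N]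
    [Algebra k F] [Algebra k K] [Algebra F N] [Algebra F Ω] [Algebra K Ω] [Algebra N Ω]
    (f : k[X]) (x : F) (s : Splitting k F Ω K N) (M : IntermediateField F Ω) : Prop :=
  ∃ W : ValuationSubring N,
    (∃ e : k, f.eval e = 0 ∧ ZeroAt k W (x - algebraMap k F e)) ∧ RationalResidue k F W ∧
    InDecomposition s M W ∧
    ∀ W' : ValuationSubring N, ZeroAt k W' (aeval x f) → InDecomposition s M W' →
      ∀ z : N, algebraMap N Ω z ∈ M → (z ∈ W' ↔ z ∈ W)

end places

section curves

/-- `F = k(x, y)` is the function field of the curve `d y^ℓ = f(x)`. -/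
def IsFunctionField {k F : Type} [Field k] [Field F] [Algebra k F] (ℓ : ℕ) (f : k[X]) (d : k)
    (x y : F) : Prop :=
  Transcendental k x ∧ algebraMap k F d * y ^ ℓ = aeval x f ∧
    IntermediateField.adjoin k {x, y} = (⊤ : IntermediateField k F)

/-- Let `F = k(x, y)` be the function field of the curve `C : d y^ℓ = f(x)`, let `Ω` be an algebraic
closure of `F` and `M = proEllField ℓ k F Ω`.  Then `M ⊆ F_U` for all sets `U` of valuation rings of
`F` over `k`, in particular for the set of all closed points of `C` and for its subsets.  For all
extensions `N ⊇ M` of `F` in `Ω`, for instance `N = M` or `N = F_U`, every section of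
`Gal(N/F) → G_k` induces on `M` the section of exactly one branch point, and this is a rational
point of `C`. -/
def SectionsFromBranchPoints (k : Type) [Field k] (ℓ : ℕ) (f : k[X]) (d : k) : Prop :=
  ∀ (F Ω : Type) [Field F] [Field Ω] [Algebra k F] [Algebra F Ω] [Algebra k Ω]
    [IsScalarTower k F Ω] [IsAlgClosure F Ω] (x y : F), IsFunctionField ℓ f d x y →
    (∀ U : Set (ValuationSubring F), (∀ O ∈ U, ∀ c : k, algebraMap k F c ∈ O) →
      proEllField ℓ k F Ω ≤ unramified F Ω U) ∧
    ∀ N : IntermediateField F Ω, proEllField ℓ k F Ω ≤ N →
      ∀ s : Splitting k F Ω (algebraicClosure k Ω) N,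
        FromOneBranchPoint f x s (proEllField ℓ k F Ω)

/-- The leading coefficient of `f` is invertible, the reduction of `f` is separable, and the degree
of `f` is at least 3 and divisible by `ℓ`. -/
def GoodPolynomial {A : Type} [CommRing A] [IsLocalRing A] (ℓ : ℕ) (f : A[X]) : Prop :=
  IsUnit f.leadingCoeff ∧ (f.map (IsLocalRing.residue A)).Separable ∧ ℓ ∣ f.natDegree ∧
    3 ≤ f.natDegree

/-- The valuation of `d` is not divisible by `ℓ`: `d = t ϖ^m` with `t` invertible in `A`, `ϖ` a
uniformiser and `m` not divisible by `ℓ`. -/
def ValuationPrimeTo (A : Type) {k : Type} [CommRing A] [Field k] [Algebra A k] (ℓ : ℕ) (d : k) :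
    Prop :=
  ∃ (ϖ t : A) (m : ℤ), Irreducible ϖ ∧ IsUnit t ∧ ¬ (ℓ : ℤ) ∣ m ∧
    d = algebraMap A k t * algebraMap A k ϖ ^ m

end curves

lemma iSup_congr_prop {α : Type} [CompleteLattice α] {P Q : α → Prop} (h : ∀ L, P L ↔ Q L) :
    (⨆ L : {L // P L}, L.1) = ⨆ L : {L // Q L}, L.1 := by
  have h1 : P = Q := funext fun L => propext (h L)
  subst h1
  rfl

lemma proEll_eq (ℓ : ℕ) (k F Ω : Type) [Field k] [Field F] [Field Ω] [Algebra k F] [Algebra F Ω]
    [Algebra k Ω] : proEllField ℓ k F Ω = Pool.Agent.Y157.PS.geomPro ℓ k F Ω := by
  unfold proEllField Pool.Agent.Y157.PS.geomPro maxProEll Pool.Agent.Y157.PS.maxPro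
  congr 1
  refine iSup_congr_prop fun L => ?_
  constructor
  · rintro ⟨⟨h1, h2, h3⟩, h4⟩
    refine ⟨⟨h1, h2, h3⟩, fun W hW z hz hz0 => ?_⟩
    obtain ⟨t, ht, h5, h6⟩ := h4 W hW z hz hz0
    exact ⟨t, ht, div_ne_zero hz0 ((_root_.map_ne_zero _).2 ht), h5, h6⟩
  · rintro ⟨⟨h1, h2, h3⟩, h4⟩
    refine ⟨⟨h1, h2, h3⟩, fun W hW z hz hz0 => ?_⟩
    obtain ⟨t, ht, -, h5, h6⟩ := h4 W hW z hz hz0
    exact ⟨t, ht, h5, h6⟩

/-- Let `A` be a complete discrete valuation ring with finite residue field and with field of
fractions `k` of characteristic zero, `ℓ` a prime number invertible in `A`, `f ∈ A[x]` a polynomial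
with invertible leading coefficient and separable reduction, whose degree is at least 3 and divisible
by `ℓ`, and `d ∈ k` an element whose valuation is not divisible by `ℓ`.  Then every section of the
fundamental group of the curve `d y^ℓ = f(x)`, of its open subcurves, and of the geometrically
pro-`ℓ` fundamental group of the curve, induces on the latter the section of exactly one branch
point, and this is a rational point. -/
theorem result (A k : Type) [CommRing A] [IsDomain A] [IsDiscreteValuationRing A]
    [IsAdicComplete (IsLocalRing.maximalIdeal A) A] [Finite (IsLocalRing.ResidueField A)]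
    [Field k] [CharZero k] [Algebra A k] [IsFractionRing A k] (ℓ : ℕ) [Fact ℓ.Prime]
    (f : A[X]) (d : k) (hℓ : IsUnit (ℓ : A)) (hf : GoodPolynomial ℓ f)
    (hd : ValuationPrimeTo A ℓ d) :
    SectionsFromBranchPoints k ℓ (f.map (algebraMap A k)) d := by
  obtain ⟨hlc, hs, hdvd, h3⟩ := hf
  obtain ⟨ϖ, t, m, hϖ, ht, hm, rfl⟩ := hd
  intro F Ω _ _ _ _ _ _ _ x y hxyF
  obtain ⟨hx, hxy, hF⟩ := hxyF
  have hcl : IsAlgClosed Ω := IsAlgClosure.isAlgClosed F
  have halg : Algebra.IsAlgebraic F Ω := IsAlgClosure.isAlgebraic
  have hd0 : algebraMap A k t * algebraMap A k ϖ ^ m ≠ 0 := by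
    refine mul_ne_zero ?_ (zpow_ne_zero _ ?_)
    · rw [Ne, map_eq_zero_iff _ (IsFractionRing.injective A k)]
      exact ht.ne_zero
    · rw [Ne, map_eq_zero_iff _ (IsFractionRing.injective A k)]
      exact hϖ.ne_zero
  have hFx := Pool.Agent.Y157.PS.alg_of_eqn (Fact.out : ℓ.Prime).pos (f.map (algebraMap A k)) _ hd0
    x y hxy hF
  rw [proEll_eq]
  refine ⟨fun U hU => ?_, fun N hN s => ?_⟩
  · exact (Pool.Agent.Y157.PS.a_ind ℓ k F Ω x hx hFx U hU).1
  · obtain ⟨W, ⟨⟨h1, ⟨e, he, h2⟩, h3'⟩, h4⟩, hun⟩ :=
      Pool.Agent.Y157.PS.padicM Pool.Agent.Y157.PS.a_ind2 hℓ f hlc hs hdvd h3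
        ϖ hϖ _ m hm t ht rfl x y hx hxy hF N hN s.toHom s.cont (fun σ c z hz => s.compat σ c z hz)
    refine ⟨W, ⟨e, ?_, h1, h2⟩, h3', h4, fun W' b1 b2 => hun W' b1.1 b1.2 b2⟩
    rwa [aeval_def, Algebra.algebraMap_self, eval₂_id] at he

end Pool.Agent.Results.MP_c385f6_ag.ProEllSections
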